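import Pool.Agent.helper78.HR.Defs

/-! HR project (MP_58257a_co), row SU: a box with at least `K` points contains a tight box with exactly `K` points. -/

set_option autoImplicit false

namespace Pool.Agent.helper78.HR

open Finset

theorem SU_hull {ι : Type*} [Fintype ι] (x y : ι → ℤ) (l r b t : ℤ)
    (h : (Pts x y l r b t).Nonempty) :
    ∃ f : Fm ι, Fr x y f ∧ cont x y f = Pts x y l r b t ∧
      l ≤ x f.1 ∧ x f.2.1 ≤ r ∧ b ≤ y f.2.2.1 ∧ y f.2.2.2 ≤ t := by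
  obtain ⟨p1, h1, m1⟩ := exists_min_image (Pts x y l r b t) x h
  obtain ⟨p2, h2, m2⟩ := exists_max_image (Pts x y l r b t) x h
  obtain ⟨p3, h3, m3⟩ := exists_min_image (Pts x y l r b t) y h
  obtain ⟨p4, h4, m4⟩ := exists_max_image (Pts x y l r b t) y h
  have e1 := (mem_Pts x y).1 h1
  have e2 := (mem_Pts x y).1 h2
  have e3 := (mem_Pts x y).1 h3
  have e4 := (mem_Pts x y).1 h4
  have key : ∀ s ∈ Pts x y l r b t, In x y (p1, p2, p3, p4) (x s, y s) :=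
    fun s hs => ⟨m1 s hs, m2 s hs, m3 s hs, m4 s hs⟩
  refine ⟨(p1, p2, p3, p4), ⟨key p1 h1, key p2 h2, key p3 h3, key p4 h4⟩, ?_, e1.1, e2.2.1, e3.2.2.1, e4.2.2.2⟩
  ext s
  rw [mem_cont, mem_Pts]
  constructor
  · rintro ⟨a1, a2, a3, a4⟩
    exact ⟨e1.1.trans a1, a2.trans e2.2.1, e3.2.2.1.trans a3, a4.trans e4.2.2.2⟩
  · rintro ⟨a1, a2, a3, a4⟩
    exact key s ((mem_Pts x y).2 ⟨a1, a2, a3, a4⟩)

theorem subbox {ι : Type*} [Fintype ι] (x y : ι → ℤ) (hx : Function.Injective x)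
    (K : ℕ) (hK : 1 ≤ K) (l r b t : ℤ) (h : K ≤ (Pts x y l r b t).card) :
    ∃ f : Fm ι, Fr x y f ∧ (cont x y f).card = K ∧
      l ≤ x f.1 ∧ x f.2.1 ≤ r ∧ b ≤ y f.2.2.1 ∧ y f.2.2.2 ≤ t := by
  classical
  obtain ⟨m, hm⟩ : ∃ m : ℕ, (Pts x y l r b t).card = K + m := ⟨_, (Nat.add_sub_cancel' h).symm⟩
  clear h
  induction m generalizing r with
  | zero =>
    obtain ⟨f, h1, h2, h3, h4, h5, h6⟩ := SU_hull x y l r b t (card_pos.1 (by omega))
    exact ⟨f, h1, by rw [h2, hm]; rfl, h3, h4, h5, h6⟩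
  | succ m ih =>
    obtain ⟨p, hp, hmax⟩ := exists_max_image (Pts x y l r b t) x (card_pos.1 (by omega))
    have hp' := (mem_Pts x y).1 hp
    have he : Pts x y l (x p - 1) b t = (Pts x y l r b t).erase p := by
      ext s
      rw [mem_erase, mem_Pts, mem_Pts]
      constructor
      · rintro ⟨h1, h2, h3, h4⟩
        refine ⟨fun he => ?_, h1, by omega, h3, h4⟩
        rw [he] at h2
        omega
      · rintro ⟨hne, h1, h2, h3, h4⟩
        have h5 := hmax s ((mem_Pts x y).2 ⟨h1, h2, h3, h4⟩)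
        have h6 : x s ≠ x p := fun h => hne (hx h)
        exact ⟨h1, by omega, h3, h4⟩
    obtain ⟨f, h1, h2, h3, h4, h5, h6⟩ := ih (x p - 1) (by rw [he, card_erase_of_mem hp, hm]; omega)
    exact ⟨f, h1, h2, h3, by omega, h5, h6⟩

end Pool.Agent.helper78.HR
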